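import Mathlib
import Pool.Agent.H710R2.DP.Defs
import Pool.Agent.H710R2.DP.Defs2
import Pool.Agent.H710R2.DP.Tasks
import Pool.Agent.H710R2.DP.VTasks
import Pool.Agent.H759R2.Kad.Props6

/-!
Statements of the pieces of the theorem: a von Neumann algebra which is the range of a bounded
projection of `B(H)` is injective.
-/

open scoped ComplexOrder InnerProductSpace ComplexConjugate TensorProduct
open Finset H759R2.Kad H710R2.DP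

noncomputable section

namespace H97R2.BP

section defs

variable {H : Type} [NormedAddCommGroup H] [InnerProductSpace ℂ H]

/-- `C a C` for a conjugation `C`. -/
def cj (C : H ≃ₗᵢ⋆[ℂ] H) (a : H →L[ℂ] H) : H →L[ℂ] H :=
  LinearMap.mkContinuous
    { toFun := fun x => C (a (C x))
      map_add' := fun x y => by simp
      map_smul' := fun c x => by simp [LinearIsometryEquiv.map_smulₛₗ] } ‖a‖ (fun x => by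
        show ‖C (a (C x))‖ ≤ ‖a‖ * ‖x‖
        rw [LinearIsometryEquiv.norm_map]
        exact (a.le_opNorm _).trans_eq (by rw [LinearIsometryEquiv.norm_map]))

theorem cj_apply (C : H ≃ₗᵢ⋆[ℂ] H) (a : H →L[ℂ] H) (x : H) : cj C a x = C (a (C x)) := rfl

/-- `a ⊗ C b C` on `H ⊗ H`. -/
def tn (C : H ≃ₗᵢ⋆[ℂ] H) (a b : H →L[ℂ] H) : (H ⊗[ℂ] H) →L[ℂ] (H ⊗[ℂ] H) :=
  TensorProduct.mapL a (cj C b)

/-- `C` is an involution. -/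
def IsConj (C : H ≃ₗᵢ⋆[ℂ] H) : Prop := ∀ x, C (C x) = x

/-- `∑ (y i)* (y i) ≤ c`. -/
def ColB {ι : Type} [Fintype ι] (y : ι → (H →L[ℂ] H)) (c : ℝ) : Prop :=
  ∀ η : H, ∑ i, ‖y i η‖ ^ 2 ≤ c * ‖η‖ ^ 2

variable [CompleteSpace H]

/-- `P` is a bounded projection of `B(H)` onto `M`. -/
structure IsProj (M : VonNeumannAlgebra H) (P : (H →L[ℂ] H) →ₗ[ℂ] (H →L[ℂ] H)) (c : ℝ) :
    Prop where
  mem : ∀ x, P x ∈ M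
  fix : ∀ m ∈ M, P m = m
  bd : ∀ x, ‖P x‖ ≤ c * ‖x‖

/-- There is a contractive projection of `B(H)` onto the corner `p M p`. -/
def Inj (M : VonNeumannAlgebra H) (p : H →L[ℂ] H) : Prop :=
  ∃ Q : (H →L[ℂ] H) →ₗ[ℂ] (H →L[ℂ] H), (∀ x, ‖Q x‖ ≤ ‖x‖) ∧
    (∀ x, Q x ∈ M ∧ p * Q x = Q x ∧ Q x * p = Q x) ∧
    ∀ m ∈ M, p * m = m → m * p = m → Q m = m

/-- Positive functional on `B(H)`, `M`-central, of value one at `z`, supported by `z`. -/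
structure HypTr (M : VonNeumannAlgebra H) (Ψ : (H →L[ℂ] H) →ₗ[ℂ] ℂ) (z : H →L[ℂ] H) : Prop where
  pos : ∀ x, 0 ≤ Ψ (star x * x)
  one : Ψ z = 1
  supp : ∀ x, Ψ (z * x * z) = Ψ x
  comm : ∀ a ∈ M, ∀ x, Ψ (a * x) = Ψ (x * a)

/-- `Ω` is cyclic for the set `S` of operators. -/
def Cyc (S : Set (H →L[ℂ] H)) (Ω : H) : Prop :=
  ∀ ζ : H, ∀ ε : ℝ, 0 < ε → ∃ x ∈ S, ‖x Ω - ζ‖ < ε

end defs

/-! ### Conjugations and the decomposition -/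

/-- Existence of conjugations. -/
def Z_conj : Prop :=
  ∀ (H : Type) [NormedAddCommGroup H] [InnerProductSpace ℂ H] [CompleteSpace H],
    ∃ C : H ≃ₗᵢ⋆[ℂ] H, IsConj C

/-- The pointwise estimate for the decomposition in finite dimension. -/
def Z_decpt : Prop :=
  ∀ (E : Type) [NormedAddCommGroup E] [InnerProductSpace ℂ E] [FiniteDimensional ℂ E]
    (ι : Type) [Fintype ι] (a : ι → (E →L[ℂ] E)) (ρ t : ℝ), 0 < ρ → 0 < t →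
    (∀ (d : ℕ) (e e' : OrthonormalBasis (Fin d) ℂ E) (g f : Fin d → ℝ), (∀ k, 0 ≤ g k) →
      (∀ k, 0 ≤ f k) → ∑ k, g k = 1 → ∑ k, f k = 1 →
      ∑ i, ∑ k, ∑ l, √(g k * f l) * ‖⟪e k, a i (e' l)⟫_ℂ‖ ^ 2 ≤ ρ) →
    ∀ G F : E →L[ℂ] E, G.IsPositive → F.IsPositive →
    (LinearMap.trace ℂ E (G : E →ₗ[ℂ] E)).re + (LinearMap.trace ℂ E (F : E →ₗ[ℂ] E)).re = 1 →
    ∃ b : ι → (E →L[ℂ] E),
      t⁻¹ * ∑ i, (LinearMap.trace ℂ E ((G ∘L b i ∘L (b i).adjoint : E →L[ℂ] E) : E →ₗ[ℂ] E)).re +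
      t * ∑ i, (LinearMap.trace ℂ E ((F ∘L (a i - b i).adjoint ∘L (a i - b i) : E →L[ℂ] E) :
        E →ₗ[ℂ] E)).re ≤ ρ

/-- The decomposition in finite dimension. -/
def Z_decfin : Prop :=
  ∀ (E : Type) [NormedAddCommGroup E] [InnerProductSpace ℂ E] [FiniteDimensional ℂ E]
    (ι : Type) [Fintype ι] (a : ι → (E →L[ℂ] E)) (ρ t : ℝ), 0 < ρ → 0 < t →
    (∀ (d : ℕ) (e e' : OrthonormalBasis (Fin d) ℂ E) (g f : Fin d → ℝ), (∀ k, 0 ≤ g k) →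
      (∀ k, 0 ≤ f k) → ∑ k, g k = 1 → ∑ k, f k = 1 →
      ∑ i, ∑ k, ∑ l, √(g k * f l) * ‖⟪e k, a i (e' l)⟫_ℂ‖ ^ 2 ≤ ρ) →
    ∃ b : ι → (E →L[ℂ] E), ColB (fun i => (b i).adjoint) (t * ρ) ∧
      ColB (fun i => a i - b i) (ρ / t)

/-- The hypothesis of `Z_decfin` for compressions. -/
def Z_cmp : Prop :=
  ∀ (H : Type) [NormedAddCommGroup H] [InnerProductSpace ℂ H] (C : H ≃ₗᵢ⋆[ℂ] H), IsConj C →
    ∀ (ι : Type) [Fintype ι] (a : ι → (H →L[ℂ] H)) (ρ : ℝ), ‖∑ i, tn C (a i) (a i)‖ ≤ ρ →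
    ∀ (d : ℕ) (e e' : Fin d → H), Orthonormal ℂ e → Orthonormal ℂ e' →
    ∀ g f : Fin d → ℝ, (∀ k, 0 ≤ g k) → (∀ k, 0 ≤ f k) → ∑ k, g k = 1 → ∑ k, f k = 1 →
      ∑ i, ∑ k, ∑ l, √(g k * f l) * ‖⟪e k, a i (e' l)⟫_ℂ‖ ^ 2 ≤ ρ

/-- Decomposition into a row part and a column part. -/
def Z_dec : Prop :=
  ∀ (H : Type) [NormedAddCommGroup H] [InnerProductSpace ℂ H] [CompleteSpace H]
    (C : H ≃ₗᵢ⋆[ℂ] H), IsConj C →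
    ∀ (ι : Type) [Fintype ι] (a : ι → (H →L[ℂ] H)) (ρ t : ℝ), 0 < ρ → 0 < t →
    ‖∑ i, tn C (a i) (a i)‖ ≤ ρ →
    ∃ b : ι → (H →L[ℂ] H), ColB (fun i => star (b i)) (t * ρ) ∧ ColB (fun i => a i - b i) (ρ / t)

/-! ### Averaging -/

/-- Averaging a projection over the signed permutations of matrix units. -/
def Z_avg : Prop :=
  ∀ (H : Type) [NormedAddCommGroup H] [InnerProductSpace ℂ H] [CompleteSpace H]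
    (M : VonNeumannAlgebra H) (P : (H →L[ℂ] H) →ₗ[ℂ] (H →L[ℂ] H)) (c : ℝ), 0 ≤ c →
    IsProj M P c → ∀ (L : ℕ) (v : Fin (L + 1) → (H →L[ℂ] H)) (q : H →L[ℂ] H), IsPr q →
    (∀ i, v i ∈ M) → (∀ i j, star (v i) * v j = if i = j then q else 0) →
    ∃ P' : (H →L[ℂ] H) →ₗ[ℂ] (H →L[ℂ] H), IsProj M P' c ∧
      (∀ i j x, P' (v i * star (v j) * x) = v i * star (v j) * P' x) ∧
      ∀ i j x, P' (x * (v i * star (v j))) = P' x * (v i * star (v j))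

/-- The projection of a corner: almost row and column bounded. -/
def Z_corner : Prop :=
  ∀ (H : Type) [NormedAddCommGroup H] [InnerProductSpace ℂ H] [CompleteSpace H]
    (M : VonNeumannAlgebra H) (P : (H →L[ℂ] H) →ₗ[ℂ] (H →L[ℂ] H)) (c : ℝ), 0 ≤ c →
    IsProj M P c → ∀ (L : ℕ) (v : Fin (L + 1) → (H →L[ℂ] H)) (q : H →L[ℂ] H), IsPr q →
    (∀ i, v i ∈ M) → (∀ i j, star (v i) * v j = if i = j then q else 0) →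
    ∃ R : (H →L[ℂ] H) →ₗ[ℂ] M.toStarSubalgebra,
      (∀ x, ‖R x‖ ≤ c * ‖x‖ ∧ q * (R x : H →L[ℂ] H) = R x ∧ (R x : H →L[ℂ] H) * q = R x) ∧
      (∀ m ∈ M, q * m = m → m * q = m → (R m : H →L[ℂ] H) = m) ∧
      ∀ (K : Type) [NormedAddCommGroup K] [InnerProductSpace ℂ K] [CompleteSpace K]
        (π : M.toStarSubalgebra →⋆ₐ[ℂ] (K →L[ℂ] K)) (Ω : K) (ι : Type) [Fintype ι]
        (y : ι → (H →L[ℂ] H)) (c₁ c₂ : ℝ), 0 ≤ c₁ → 0 ≤ c₂ → ColB y c₁ →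
        ColB (fun i => star (y i)) c₂ →
        ∑ i, ‖π (R (y i)) Ω‖ ^ 2 ≤ 3 * c ^ 2 * (c₁ + c₂ / (L + 1)) * ‖Ω‖ ^ 2 ∧
        ∑ i, ‖star (π (R (y i))) Ω‖ ^ 2 ≤ 3 * c ^ 2 * (c₂ + c₁ / (L + 1)) * ‖Ω‖ ^ 2

/-! ### Finite algebras -/

/-- The inequality for unitaries of a corner, in the presence of a tracial functional. -/
def Z_fin : Prop :=
  ∀ (H : Type) [NormedAddCommGroup H] [InnerProductSpace ℂ H] [CompleteSpace H]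
    (C : H ≃ₗᵢ⋆[ℂ] H), IsConj C →
    ∀ (M : VonNeumannAlgebra H) (P : (H →L[ℂ] H) →ₗ[ℂ] (H →L[ℂ] H)) (c : ℝ), 1 ≤ c →
    IsProj M P c → ∀ (L : ℕ) (v : Fin (L + 1) → (H →L[ℂ] H)) (q : M.toStarSubalgebra),
    IsPr (q : H →L[ℂ] H) → (∀ i, v i ∈ M) → (∀ i j, star (v i) * v j = if i = j then (q : H →L[ℂ] H) else 0) →
    96 * c ^ 2 ≤ L →
    ∀ τ : M.toStarSubalgebra →ₗ[ℂ] ℂ, (∀ a, 0 ≤ τ (star a * a)) → (∀ a b, τ (a * b) = τ (b * a)) →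
    τ q ≠ 0 → ∀ (n : ℕ) (u : Fin n → (H →L[ℂ] H)), (∀ i, u i ∈ M ∧
      star (u i) * u i = q ∧ u i * star (u i) = q) →
    (n : ℝ) ≤ ‖∑ i, tn C (u i) (u i)‖

/-- Invariant states. -/
def Z_state : Prop :=
  ∀ (H : Type) [NormedAddCommGroup H] [InnerProductSpace ℂ H] [CompleteSpace H]
    (C : H ≃ₗᵢ⋆[ℂ] H), IsConj C → ∀ (M : VonNeumannAlgebra H) (q : H →L[ℂ] H), q ∈ M →
    IsPr q → q ≠ 0 →
    (∀ (n : ℕ) (u : Fin n → (H →L[ℂ] H)), (∀ i, u i ∈ M ∧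
      star (u i) * u i = q ∧ u i * star (u i) = q) → (n : ℝ) ≤ ‖∑ i, tn C (u i) (u i)‖) →
    ∃ ψ : (H →L[ℂ] H) →ₗ[ℂ] ℂ, (∀ x, 0 ≤ ψ (star x * x)) ∧ ψ q = 1 ∧
      (∀ x, ψ (q * x * q) = ψ x) ∧
      ∀ u ∈ M, star u * u = q → u * star u = q → ∀ x, ψ (u * x * star u) = ψ x

/-- From the corner to the whole piece. -/
def Z_hyp : Prop :=
  ∀ (H : Type) [NormedAddCommGroup H] [InnerProductSpace ℂ H] [CompleteSpace H]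
    (M : VonNeumannAlgebra H) (z : H →L[ℂ] H), IsCP M z →
    ∀ (L : ℕ) (e : Fin (L + 1) → Fin (L + 1) → (H →L[ℂ] H)), MU M z (L + 1) e →
    (∃ ψ : (H →L[ℂ] H) →ₗ[ℂ] ℂ, (∀ x, 0 ≤ ψ (star x * x)) ∧ ψ (e 0 0) = 1 ∧
      (∀ x, ψ (e 0 0 * x * e 0 0) = ψ x) ∧
      ∀ u ∈ M, star u * u = e 0 0 → u * star u = e 0 0 → ∀ x, ψ (u * x * star u) = ψ x) →
    ∃ Ψ : (H →L[ℂ] H) →ₗ[ℂ] ℂ, HypTr M Ψ z

/-- Nearly tracial vector functionals. -/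
def Z_near : Prop :=
  ∀ (H : Type) [NormedAddCommGroup H] [InnerProductSpace ℂ H] [CompleteSpace H]
    (M : VonNeumannAlgebra H) (z : M.toStarSubalgebra), CPrj z → z ≠ 0 → Fnt z →
    ∃ (k : ℕ) (η : Fin k → H), (∀ j, (z : H →L[ℂ] H) (η j) = η j) ∧ (∃ j, η j ≠ 0) ∧
      ∀ x ∈ M, ∑ j, ‖star x (η j)‖ ^ 2 ≤ 2 * ∑ j, ‖x (η j)‖ ^ 2

/-- Hypertraces with prescribed restriction to the centre. -/
def Z_glo : Prop :=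
  ∀ (H : Type) [NormedAddCommGroup H] [InnerProductSpace ℂ H] [CompleteSpace H]
    (M : VonNeumannAlgebra H) (p : H →L[ℂ] H), IsCP M p →
    (∀ z, IsCP M z → p * z = z → z ≠ 0 → ∃ Ψ : (H →L[ℂ] H) →ₗ[ℂ] ℂ, HypTr M Ψ z) →
    ∀ (k : ℕ) (η : Fin k → H), (∀ j, p (η j) = η j) → (∑ j, ‖η j‖ ^ 2 = 1) →
    ∃ Ψ : (H →L[ℂ] H) →ₗ[ℂ] ℂ, HypTr M Ψ p ∧
      ∀ z, IsCen M z → Ψ z = ∑ j, ⟪η j, z (η j)⟫_ℂ

/-- The trace of a hypertrace is comparable with a nearly tracial vector functional. -/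
def Z_cmpr : Prop :=
  ∀ (H : Type) [NormedAddCommGroup H] [InnerProductSpace ℂ H] [CompleteSpace H]
    (M : VonNeumannAlgebra H) (p : H →L[ℂ] H), IsCP M p →
    ∀ (k : ℕ) (η : Fin k → H), (∀ j, p (η j) = η j) →
    (∀ x ∈ M, ∑ j, ‖star x (η j)‖ ^ 2 ≤ 2 * ∑ j, ‖x (η j)‖ ^ 2) →
    ∀ Ψ : (H →L[ℂ] H) →ₗ[ℂ] ℂ, HypTr M Ψ p →
    (∀ z, IsCen M z → Ψ z = ∑ j, ⟪η j, z (η j)⟫_ℂ) →
    ∀ x ∈ M, (Ψ (star x * x)).re ≤ 2 * ∑ j, ‖x (η j)‖ ^ 2 ∧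
      ∑ j, ‖x (η j)‖ ^ 2 ≤ 2 * (Ψ (star x * x)).re

/-- Radon-Nikodym theorem for the hypertrace. -/
def Z_rn : Prop :=
  ∀ (H : Type) [NormedAddCommGroup H] [InnerProductSpace ℂ H] [CompleteSpace H]
    (M : VonNeumannAlgebra H) (p : H →L[ℂ] H), IsCP M p →
    ∀ (k : ℕ) (η : Fin k → H) (Ψ : (H →L[ℂ] H) →ₗ[ℂ] ℂ), HypTr M Ψ p →
    (∀ x ∈ M, (Ψ (star x * x)).re ≤ 2 * ∑ j, ‖x (η j)‖ ^ 2) →
    ∀ y : H →L[ℂ] H, ∃ h ∈ M, p * h = h ∧ ‖h‖ ≤ ‖y‖ ∧ ∀ a ∈ M, Ψ (a * h) = Ψ (a * y)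

/-- Finite pieces are injective. -/
def Z_finE : Prop :=
  ∀ (H : Type) [NormedAddCommGroup H] [InnerProductSpace ℂ H] [CompleteSpace H]
    (M : VonNeumannAlgebra H) (p : H →L[ℂ] H), IsCP M p →
    ∀ (k : ℕ) (η : Fin k → H) (Ψ : (H →L[ℂ] H) →ₗ[ℂ] ℂ), (∃ j, η j ≠ 0) → (∀ j, p (η j) = η j) →
    HypTr M Ψ p →
    (∀ x ∈ M, (Ψ (star x * x)).re ≤ 2 * ∑ j, ‖x (η j)‖ ^ 2 ∧
      ∑ j, ‖x (η j)‖ ^ 2 ≤ 2 * (Ψ (star x * x)).re) →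
    ∃ p', IsCP M p' ∧ p' ≠ 0 ∧ p * p' = p' ∧ Inj M p'

/-! ### Type I pieces, gluing -/

/-- Pieces of the first kind are injective. -/
def Z_pieceA : Prop :=
  ∀ (H : Type) [NormedAddCommGroup H] [InnerProductSpace ℂ H] [CompleteSpace H]
    (M : VonNeumannAlgebra H) (p : H →L[ℂ] H), IsCP M p → PieceA M p → Inj M p

/-- Limits of contractive projections onto corners. -/
def Z_dir : Prop :=
  ∀ (H : Type) [NormedAddCommGroup H] [InnerProductSpace ℂ H] [CompleteSpace H]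
    (M : VonNeumannAlgebra H) (p : H →L[ℂ] H) (I : Type) [Preorder I] [IsDirectedOrder I]
    [Nonempty I] (e : I → (H →L[ℂ] H)), (∀ i, e i ∈ M ∧ IsPr (e i) ∧ Inj M (e i)) →
    p ∈ M → IsPr p → (∀ i, p * e i = e i) → (∀ i j, i ≤ j → e j * e i = e i) →
    (∀ ζ : H, ∀ ε : ℝ, 0 < ε → ∃ i, ‖e i ζ - p ζ‖ ≤ ε) → Inj M p

/-- Gluing over central projections. -/
def Z_glue : Prop :=
  ∀ (H : Type) [NormedAddCommGroup H] [InnerProductSpace ℂ H] [CompleteSpace H]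
    (M : VonNeumannAlgebra H),
    (∀ q, IsCP M q → q ≠ 0 → ∃ p, IsCP M p ∧ p ≠ 0 ∧ q * p = p ∧ Inj M p) → Inj M 1

/-! ### Properly infinite algebras -/

/-- Row and column bounded projections of properly infinite algebras. -/
def Z_inf : Prop :=
  ∀ (H : Type) [NormedAddCommGroup H] [InnerProductSpace ℂ H] [CompleteSpace H]
    (M : VonNeumannAlgebra H) (P : (H →L[ℂ] H) →ₗ[ℂ] (H →L[ℂ] H)) (c : ℝ), 0 ≤ c →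
    IsProj M P c → ∀ p s₁ s₂ : H →L[ℂ] H, IsCP M p → s₁ ∈ M → s₂ ∈ M → star s₁ * s₁ = p →
    star s₂ * s₂ = p → star s₁ * s₂ = 0 → p * s₁ = s₁ → p * s₂ = s₂ →
    ∃ R : (H →L[ℂ] H) →ₗ[ℂ] (H →L[ℂ] H), (∀ x, R x ∈ M ∧ p * R x = R x) ∧
      (∀ m ∈ M, p * m = m → R m = m) ∧
      ∀ (ι : Type) [Fintype ι] (y : ι → (H →L[ℂ] H)) (r : ℝ), 0 ≤ r → ∀ ζ : H,
        (ColB y r → ∑ i, ‖R (y i) ζ‖ ^ 2 ≤ 3 * c ^ 2 * r * ‖ζ‖ ^ 2) ∧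
        (ColB (fun i => star (y i)) r → ∑ i, ‖star (R (y i)) ζ‖ ^ 2 ≤ 3 * c ^ 2 * r * ‖ζ‖ ^ 2)

/-- The projection onto the closed span of `M' ξ_j`. -/
def Z_supp : Prop :=
  ∀ (H : Type) [NormedAddCommGroup H] [InnerProductSpace ℂ H] [CompleteSpace H]
    (M : VonNeumannAlgebra H) (k : ℕ) (ξ : Fin k → H), ∃ e ∈ M, IsPr e ∧ (∀ j, e (ξ j) = ξ j) ∧
      (∀ y : H →L[ℂ] H, (∀ t : H →L[ℂ] H, t ∈ M.commutant → ∀ j, y (t (ξ j)) = 0) → y * e = 0) ∧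
      ∀ f ∈ M, (∀ j, f (ξ j) = ξ j) → f * e = e

/-- Standard data for a corner `e M e`: a von Neumann algebra `N` on `K` with cyclic and separating
unit vector `Ω`, isomorphic to `e M e` by `j`. -/
structure Std {H : Type} [NormedAddCommGroup H] [InnerProductSpace ℂ H] [CompleteSpace H]
    (M : VonNeumannAlgebra H) (e : H →L[ℂ] H) {k : ℕ} (ξ : Fin k → H) {K : Type}
    [NormedAddCommGroup K] [InnerProductSpace ℂ K] [CompleteSpace K] (N : VonNeumannAlgebra K)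
    (Ω : K) (j : N.toStarSubalgebra →ₗ[ℂ] (H →L[ℂ] H)) : Prop where
  mul : ∀ a b, j (a * b) = j a * j b
  adj : ∀ a, j (star a) = star (j a)
  nrm : ∀ a, ‖j a‖ = ‖a‖
  mem : ∀ a, j a ∈ M ∧ e * j a = j a ∧ j a * e = j a
  onto : ∀ m ∈ M, e * m = m → m * e = m → ∃ a, j a = m
  vec : ∀ a : N.toStarSubalgebra, ‖(a : K →L[ℂ] K) Ω‖ ^ 2 = ∑ i, ‖j a (ξ i)‖ ^ 2
  cyc : Cyc (N : Set (K →L[ℂ] K)) Ω
  sep : Cyc (N.commutant : Set (K →L[ℂ] K)) Ω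

/-- Reduction of tuples of vectors to single vectors. -/
def Z_amp : Prop :=
  ∀ (H : Type) [NormedAddCommGroup H] [InnerProductSpace ℂ H] [CompleteSpace H]
    (M : VonNeumannAlgebra H) (k : ℕ) (ξ : Fin (k + 1) → H),
    ∃ (G : Type) (_ : NormedAddCommGroup G) (_ : InnerProductSpace ℂ G) (_ : CompleteSpace G)
      (W : VonNeumannAlgebra G) (ζ : G) (i : M.toStarSubalgebra →ₗ[ℂ] (G →L[ℂ] G))
      (r : W.toStarSubalgebra →ₗ[ℂ] (H →L[ℂ] H)),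
      (∀ a, i a ∈ W) ∧ (∀ b, r b ∈ M) ∧ (∀ a b, i (a * b) = i a * i b) ∧
      (∀ a b, r (a * b) = r a * r b) ∧ (∀ a, i (star a) = star (i a)) ∧
      (∀ b, r (star b) = star (r b)) ∧ (∀ b, ‖r b‖ = ‖b‖) ∧
      (∀ (a : M.toStarSubalgebra) (b : W.toStarSubalgebra),
        i a = (b : G →L[ℂ] G) ↔ r b = (a : H →L[ℂ] H)) ∧
      (∀ a : M.toStarSubalgebra, ‖i a ζ‖ ^ 2 = ∑ j, ‖(a : H →L[ℂ] H) (ξ j)‖ ^ 2) ∧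
      ∀ e : M.toStarSubalgebra,
        (∀ y : H →L[ℂ] H, (∀ t : H →L[ℂ] H, t ∈ M.commutant → ∀ j, y (t (ξ j)) = 0) →
          y * (e : H →L[ℂ] H) = 0) →
        ∀ y : G →L[ℂ] G, (∀ t : G →L[ℂ] G, t ∈ W.commutant → y (t ζ) = 0) → y * i e = 0

/-- Standard data, for one vector. -/
def Z_std1 : Prop :=
  ∀ (H : Type) [NormedAddCommGroup H] [InnerProductSpace ℂ H] [CompleteSpace H]
    (M : VonNeumannAlgebra H) (ξ : H) (e : H →L[ℂ] H), e ∈ M → IsPr e → e ξ = ξ →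
    (∀ y : H →L[ℂ] H, (∀ t : H →L[ℂ] H, t ∈ M.commutant → y (t ξ) = 0) → y * e = 0) →
    ∃ (K : Type) (_ : NormedAddCommGroup K) (_ : InnerProductSpace ℂ K) (_ : CompleteSpace K)
      (N : VonNeumannAlgebra K) (Ω : K) (j : N.toStarSubalgebra →ₗ[ℂ] (H →L[ℂ] H)),
      Std M e (fun _ : Fin 1 => ξ) N Ω j

/-- Existence of standard data. -/
def Z_std : Prop :=
  ∀ (H : Type) [NormedAddCommGroup H] [InnerProductSpace ℂ H] [CompleteSpace H]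
    (M : VonNeumannAlgebra H) (k : ℕ) (ξ : Fin (k + 1) → H) (e : H →L[ℂ] H), e ∈ M → IsPr e →
    (∀ j, e (ξ j) = ξ j) →
    (∀ y : H →L[ℂ] H, (∀ t : H →L[ℂ] H, t ∈ M.commutant → ∀ j, y (t (ξ j)) = 0) → y * e = 0) →
    ∃ (K : Type) (_ : NormedAddCommGroup K) (_ : InnerProductSpace ℂ K) (_ : CompleteSpace K)
      (N : VonNeumannAlgebra K) (Ω : K) (j : N.toStarSubalgebra →ₗ[ℂ] (H →L[ℂ] H)),
      Std M e ξ N Ω j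

/-- The modular conjugation. -/
structure IsMod {K : Type} [NormedAddCommGroup K] [InnerProductSpace ℂ K] [CompleteSpace K]
    (N : VonNeumannAlgebra K) (Ω : K) (J : K ≃ₗᵢ⋆[ℂ] K) : Prop where
  inv : IsConj J
  fix : J Ω = Ω
  left : ∀ x ∈ N, cj J x ∈ N.commutant
  right : ∀ x' : K →L[ℂ] K, x' ∈ N.commutant → cj J x' ∈ N
  pos : ∀ x ∈ N, 0 ≤ ⟪Ω, x (cj J x Ω)⟫_ℂ

/-- Tomita's theorem. -/
def Z_tomita : Prop :=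
  ∀ (K : Type) [NormedAddCommGroup K] [InnerProductSpace ℂ K] [CompleteSpace K]
    (N : VonNeumannAlgebra K) (Ω : K), Cyc (N : Set (K →L[ℂ] K)) Ω →
    Cyc (N.commutant : Set (K →L[ℂ] K)) Ω → ∃ J : K ≃ₗᵢ⋆[ℂ] K, IsMod N Ω J

/-- Telescoping over dyadic scales. -/
def Z_tele : Prop :=
  ∀ (H : Type) [NormedAddCommGroup H] [InnerProductSpace ℂ H] [CompleteSpace H]
    (C : H ≃ₗᵢ⋆[ℂ] H), IsConj C →
    ∀ (K : Type) [NormedAddCommGroup K] [InnerProductSpace ℂ K] [CompleteSpace K]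
    (N : VonNeumannAlgebra K) (Ω : K) (J : K ≃ₗᵢ⋆[ℂ] K), IsMod N Ω J → ‖Ω‖ = 1 →
    ∀ (j : N.toStarSubalgebra →ₗ[ℂ] (H →L[ℂ] H)) (R : (H →L[ℂ] H) →ₗ[ℂ] N.toStarSubalgebra)
    (D : ℝ), 1 ≤ D → (∀ a, R (j a) = a) →
    (∀ (ι : Type) [Fintype ι] (y : ι → (H →L[ℂ] H)) (r : ℝ), 0 ≤ r →
        (ColB y r → ∑ i, ‖(R (y i) : K →L[ℂ] K) Ω‖ ^ 2 ≤ D * r) ∧
        (ColB (fun i => star (y i)) r → ∑ i, ‖star (R (y i) : K →L[ℂ] K) Ω‖ ^ 2 ≤ D * r)) →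
    ∀ (ι : Type) [Fintype ι] (x : ι → N.toStarSubalgebra) (ρ A : ℝ) (m : ℕ), 0 < ρ → 0 ≤ A →
    ‖∑ i, tn C (j (x i)) (j (x i))‖ ≤ ρ → ∑ i, ‖(x i : K →L[ℂ] K) Ω‖ ^ 2 ≤ A →
    ∑ i, ‖star (x i : K →L[ℂ] K) Ω‖ ^ 2 ≤ A → A ≤ 2 ^ m * ρ →
    ∑ i, (⟪Ω, (x i : K →L[ℂ] K) (cj J (x i : K →L[ℂ] K) Ω)⟫_ℂ).re ≤
      100 * D * (m + 1) ^ 2 * ρ

/-- The norm of `∑ x J x J`. -/
def Z_pow : Prop :=
  ∀ (H : Type) [NormedAddCommGroup H] [InnerProductSpace ℂ H] [CompleteSpace H]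
    (C : H ≃ₗᵢ⋆[ℂ] H), IsConj C →
    ∀ (K : Type) [NormedAddCommGroup K] [InnerProductSpace ℂ K] [CompleteSpace K]
    (N : VonNeumannAlgebra K) (Ω : K) (J : K ≃ₗᵢ⋆[ℂ] K), IsMod N Ω J → ‖Ω‖ = 1 →
    Cyc (N : Set (K →L[ℂ] K)) Ω →
    ∀ (j : N.toStarSubalgebra →ₗ[ℂ] (H →L[ℂ] H)) (D : ℝ), 1 ≤ D →
    (∀ a b, j (a * b) = j a * j b) → (∀ a, j (star a) = star (j a)) → (∀ a, ‖j a‖ = ‖a‖) →
    (∀ (ι : Type) [Fintype ι] (x : ι → N.toStarSubalgebra) (ρ A : ℝ) (m : ℕ), 0 < ρ → 0 ≤ A →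
      ‖∑ i, tn C (j (x i)) (j (x i))‖ ≤ ρ → ∑ i, ‖(x i : K →L[ℂ] K) Ω‖ ^ 2 ≤ A →
      ∑ i, ‖star (x i : K →L[ℂ] K) Ω‖ ^ 2 ≤ A → A ≤ 2 ^ m * ρ →
      ∑ i, (⟪Ω, (x i : K →L[ℂ] K) (cj J (x i : K →L[ℂ] K) Ω)⟫_ℂ).re ≤
        100 * D * (m + 1) ^ 2 * ρ) →
    ∀ (ι : Type) [Fintype ι] (x : ι → N.toStarSubalgebra) (σ : ι → ι), (∀ i, σ (σ i) = i) →
      (∀ i, x (σ i) = star (x i)) →
      ‖∑ i, (x i : K →L[ℂ] K) * cj J (x i : K →L[ℂ] K)‖ ≤ ‖∑ i, tn C (j (x i)) (j (x i))‖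

/-- The involution `x ⊗ y ↦ C y ⊗ C x`. -/
def Z_flip : Prop :=
  ∀ (H : Type) [NormedAddCommGroup H] [InnerProductSpace ℂ H] (C : H ≃ₗᵢ⋆[ℂ] H), IsConj C →
    ∃ F : (H ⊗[ℂ] H) ≃ₗᵢ⋆[ℂ] (H ⊗[ℂ] H), IsConj F ∧ (∀ x y, F (x ⊗ₜ y) = C y ⊗ₜ C x) ∧
      ∀ a b h, F (tn C a b (F h)) = tn C b a h

/-- Real vectors almost attaining the norm. -/
def Z_real : Prop :=
  ∀ (H : Type) [NormedAddCommGroup H] [InnerProductSpace ℂ H] [CompleteSpace H]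
    (C : H ≃ₗᵢ⋆[ℂ] H), IsConj C → ∀ (F : (H ⊗[ℂ] H) ≃ₗᵢ⋆[ℂ] (H ⊗[ℂ] H)), IsConj F →
    (∀ a b h, F (tn C a b (F h)) = tn C b a h) →
    ∀ (ι : Type) [Fintype ι] (y : ι → (H →L[ℂ] H)) (σ : ι → ι), (∀ i, σ (σ i) = i) →
      (∀ i, y (σ i) = star (y i)) → ∀ s : ℝ,
      (∀ l : ℝ, 0 ≤ l → s + l ≤ ‖(l : ℂ) • (1 : (H ⊗[ℂ] H) →L[ℂ] (H ⊗[ℂ] H)) +
        ∑ i, tn C (y i) (y i)‖) →
      Nontrivial H → ∀ ε : ℝ, 0 < ε → ∃ h : H ⊗[ℂ] H, ‖h‖ = 1 ∧ F h = h ∧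
        s ≤ (⟪h, (∑ i, tn C (y i) (y i)) h⟫_ℂ).re + ε

/-- The class of forms. -/
structure KForm {H : Type} [NormedAddCommGroup H] [InnerProductSpace ℂ H] [CompleteSpace H]
    (Φ : (H →L[ℂ] H) → (H →L[ℂ] H) → ℂ) : Prop where
  add_left : ∀ x x' y, Φ (x + x') y = Φ x y + Φ x' y
  smul_left : ∀ (c : ℂ) x y, Φ (c • x) y = c * Φ x y
  symm : ∀ x y, Φ y x = conj (Φ x y)
  one : Φ 1 1 = 1
  pos : ∀ x, 0 ≤ Φ (star x * x) 1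
  bd : ∀ a b y, ‖Φ (star a * b) y‖ ^ 2 ≤ ‖y‖ ^ 2 * (Φ (star a * a) 1).re * (Φ (star b * b) 1).re

/-- Existence of a dominating form. -/
def Z_form : Prop :=
  ∀ (H : Type) [NormedAddCommGroup H] [InnerProductSpace ℂ H] [CompleteSpace H]
    (C : H ≃ₗᵢ⋆[ℂ] H), IsConj C → ∀ (F : (H ⊗[ℂ] H) ≃ₗᵢ⋆[ℂ] (H ⊗[ℂ] H)), IsConj F →
    (∀ a b h, F (tn C a b (F h)) = tn C b a h) →
    ∀ (X : Type) (y : X → (H →L[ℂ] H)) (s : X → ℝ),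
    (∀ (n : ℕ) (i : Fin n → X) (l : Fin n → ℝ), (∀ k, 0 ≤ l k) → ∀ ε : ℝ, 0 < ε →
      ∃ h : H ⊗[ℂ] H, ‖h‖ = 1 ∧ F h = h ∧
        ∑ k, l k * s (i k) ≤ ∑ k, l k * (⟪h, tn C (y (i k)) (y (i k)) h⟫_ℂ).re + ε) →
    ∃ Φ : (H →L[ℂ] H) → (H →L[ℂ] H) → ℂ, KForm Φ ∧ ∀ x, s x ≤ (Φ (y x) (y x)).re

/-- The conditional expectation. -/
def Z_exp : Prop :=
  ∀ (H : Type) [NormedAddCommGroup H] [InnerProductSpace ℂ H] [CompleteSpace H]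
    (K : Type) [NormedAddCommGroup K] [InnerProductSpace ℂ K] [CompleteSpace K]
    (N : VonNeumannAlgebra K) (Ω : K) (J : K ≃ₗᵢ⋆[ℂ] K), IsMod N Ω J → ‖Ω‖ = 1 →
    Cyc (N : Set (K →L[ℂ] K)) Ω → Cyc (N.commutant : Set (K →L[ℂ] K)) Ω →
    ∀ (j : N.toStarSubalgebra →ₗ[ℂ] (H →L[ℂ] H)),
    (∀ a b, j (a * b) = j a * j b) → (∀ a, j (star a) = star (j a)) → (∀ a, ‖j a‖ = ‖a‖) →
    ∀ (Φ : (H →L[ℂ] H) → (H →L[ℂ] H) → ℂ), KForm Φ →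
    (∀ x : N.toStarSubalgebra,
      (⟪Ω, (x : K →L[ℂ] K) (cj J (x : K →L[ℂ] K) Ω)⟫_ℂ).re ≤ (Φ (j x) (j x)).re) →
    ∃ E : (H →L[ℂ] H) →ₗ[ℂ] N.toStarSubalgebra, (∀ y, ‖E y‖ ≤ ‖y‖) ∧ ∀ x, E (j x) = x

/-- Corners of properly infinite algebras are injective. -/
def Z_tuple : Prop :=
  ∀ (H : Type) [NormedAddCommGroup H] [InnerProductSpace ℂ H] [CompleteSpace H]
    (M : VonNeumannAlgebra H) (p : H →L[ℂ] H), IsCP M p → ∀ c : ℝ, 0 ≤ c →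
    (∃ R : (H →L[ℂ] H) →ₗ[ℂ] (H →L[ℂ] H), (∀ x, R x ∈ M ∧ p * R x = R x) ∧
      (∀ m ∈ M, p * m = m → R m = m) ∧
      ∀ (ι : Type) [Fintype ι] (y : ι → (H →L[ℂ] H)) (r : ℝ), 0 ≤ r → ∀ ζ : H,
        (ColB y r → ∑ i, ‖R (y i) ζ‖ ^ 2 ≤ 3 * c ^ 2 * r * ‖ζ‖ ^ 2) ∧
        (ColB (fun i => star (y i)) r → ∑ i, ‖star (R (y i)) ζ‖ ^ 2 ≤ 3 * c ^ 2 * r * ‖ζ‖ ^ 2)) →
    ∀ (k : ℕ) (ξ : Fin k → H) (e : H →L[ℂ] H), e ∈ M → IsPr e → p * e = e →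
    (∀ j, e (ξ j) = ξ j) →
    (∀ y : H →L[ℂ] H, (∀ t : H →L[ℂ] H, t ∈ M.commutant → ∀ j, y (t (ξ j)) = 0) → y * e = 0) →
    Inj M e

/-- Properly infinite pieces are injective. -/
def Z_pinf : Prop :=
  ∀ (H : Type) [NormedAddCommGroup H] [InnerProductSpace ℂ H] [CompleteSpace H]
    (M : VonNeumannAlgebra H) (P : (H →L[ℂ] H) →ₗ[ℂ] (H →L[ℂ] H)) (c : ℝ), 0 ≤ c →
    IsProj M P c → ∀ p s₁ s₂ : H →L[ℂ] H, IsCP M p → s₁ ∈ M → s₂ ∈ M → star s₁ * s₁ = p →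
    star s₂ * s₂ = p → star s₁ * s₂ = 0 → p * s₁ = s₁ → p * s₂ = s₂ → Inj M p

end H97R2.BP
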