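import Mathlib
import Pool.Agent.H97R2.BP.Defs

/-!
Statements of the pieces of Tomita's theorem (bounded operator approach of Rieffel and van Daele).
-/

open scoped ComplexOrder InnerProductSpace ComplexConjugate TensorProduct
open Finset H759R2.Kad H710R2.DP

noncomputable section

namespace H97R2.BP

/-- The data of Rieffel and van Daele: `R = P + Q`, `A = P - Q` for the real orthogonal projections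
`P`, `Q` onto the closures of `N_sa Ω` and `i N_sa Ω`. -/
structure TomD {K : Type} [NormedAddCommGroup K] [InnerProductSpace ℂ K] [CompleteSpace K]
    (N : VonNeumannAlgebra K) (Ω : K) (R : K →L[ℂ] K) (A : K →L⋆[ℂ] K) : Prop where
  sa : ∀ ξ η, ⟪R ξ, η⟫_ℂ = ⟪ξ, R η⟫_ℂ
  asym : ∀ ξ η, ⟪A ξ, η⟫_ℂ = ⟪A η, ξ⟫_ℂ
  pos : ∀ ξ, 0 ≤ (⟪ξ, R ξ⟫_ℂ).re
  pos2 : ∀ ξ, (⟪ξ, R ξ⟫_ℂ).re ≤ 2 * ‖ξ‖ ^ 2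
  inj : ∀ ξ, R ξ = 0 → ξ = 0
  inj2 : ∀ ξ, R ξ = (2 : ℂ) • ξ → ξ = 0
  sq : ∀ ξ, A (A ξ) = (2 : ℂ) • R ξ - R (R ξ)
  com : ∀ ξ, A (R ξ) = (2 : ℂ) • A ξ - R (A ξ)
  om : R Ω = Ω
  om2 : A Ω = Ω
  gr : ∀ x ∈ N, A (star x Ω) = (2 : ℂ) • x Ω - R (x Ω)
  gr' : ∀ x : K →L[ℂ] K, x ∈ N.commutant → A (star x Ω) = R (x Ω)
  dense : ∀ ξ, A ξ = (2 : ℂ) • ξ - R ξ → ∀ ε : ℝ, 0 < ε →
    ∃ x ∈ N, star x = x ∧ ‖x Ω - ξ‖ < ε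

/-- Polar decomposition of `A`. -/
structure TomJ {K : Type} [NormedAddCommGroup K] [InnerProductSpace ℂ K] [CompleteSpace K]
    (R : K →L[ℂ] K) (A : K →L⋆[ℂ] K) (T : K →L[ℂ] K) (J : K ≃ₗᵢ⋆[ℂ] K) : Prop where
  tsa : ∀ ξ η, ⟪T ξ, η⟫_ℂ = ⟪ξ, T η⟫_ℂ
  tpos : ∀ ξ, 0 ≤ (⟪ξ, T ξ⟫_ℂ).re
  tsq : ∀ ξ, T (T ξ) = (2 : ℂ) • R ξ - R (R ξ)
  tr : ∀ ξ, T (R ξ) = R (T ξ)
  inv : IsConj J
  polar : ∀ ξ, A ξ = J (T ξ)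
  polar' : ∀ ξ, A ξ = T (J ξ)
  jr : ∀ ξ, J (R ξ) = (2 : ℂ) • J ξ - R (J ξ)

/-- Existence of the data. -/
def Z_t1 : Prop :=
  ∀ (K : Type) [NormedAddCommGroup K] [InnerProductSpace ℂ K] [CompleteSpace K]
    (N : VonNeumannAlgebra K) (Ω : K), Cyc (N : Set (K →L[ℂ] K)) Ω →
    Cyc (N.commutant : Set (K →L[ℂ] K)) Ω →
    ∃ (R : K →L[ℂ] K) (A : K →L⋆[ℂ] K), TomD N Ω R A

/-- Existence of the polar decomposition of `A`. -/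
def Z_t1b : Prop :=
  ∀ (K : Type) [NormedAddCommGroup K] [InnerProductSpace ℂ K] [CompleteSpace K]
    (N : VonNeumannAlgebra K) (Ω : K) (R : K →L[ℂ] K) (A : K →L⋆[ℂ] K), TomD N Ω R A →
    ∃ (T : K →L[ℂ] K) (J : K ≃ₗᵢ⋆[ℂ] K), TomJ R A T J ∧ J Ω = Ω

/-- The linear Radon-Nikodym theorem. -/
def Z_rnn : Prop :=
  ∀ (K : Type) [NormedAddCommGroup K] [InnerProductSpace ℂ K] [CompleteSpace K]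
    (N : VonNeumannAlgebra K) (Ω : K) (x' : K →L[ℂ] K), x' ∈ N.commutant → ∀ l m : ℝ, 0 < l →
    0 < m → ∃ X ∈ N, ‖X‖ ≤ ‖x'‖ / (2 * √(l * m)) ∧
      ∀ y ∈ N, ⟪Ω, y (x' Ω)⟫_ℂ = (l : ℂ) * ⟪Ω, X (y Ω)⟫_ℂ + (m : ℂ) * ⟪Ω, y (X Ω)⟫_ℂ

/-- `R` maps `N' Ω` to `N Ω`. -/
def Z_e1 : Prop :=
  ∀ (K : Type) [NormedAddCommGroup K] [InnerProductSpace ℂ K] [CompleteSpace K]
    (N : VonNeumannAlgebra K) (Ω : K) (R : K →L[ℂ] K) (A : K →L⋆[ℂ] K), TomD N Ω R A →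
    ∀ x' : K →L[ℂ] K, x' ∈ N.commutant → ∃ a ∈ N, R (x' Ω) = a Ω ∧ A (x' Ω) = star a Ω

/-- The fundamental identity. -/
def Z_t3 : Prop :=
  ∀ (K : Type) [NormedAddCommGroup K] [InnerProductSpace ℂ K] [CompleteSpace K]
    (N : VonNeumannAlgebra K) (Ω : K) (R : K →L[ℂ] K) (A : K →L⋆[ℂ] K), TomD N Ω R A →
    Cyc (N.commutant : Set (K →L[ℂ] K)) Ω →
    ∀ x' : K →L[ℂ] K, x' ∈ N.commutant → ∀ l m : ℝ, ∀ X ∈ N,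
      (∀ y ∈ N, ⟪Ω, y (x' Ω)⟫_ℂ = (l : ℂ) * ⟪Ω, X (y Ω)⟫_ℂ + (m : ℂ) * ⟪Ω, y (X Ω)⟫_ℂ) →
      ∀ ξ, A (x' (A ξ)) = (l : ℂ) • R (star X ((2 : ℂ) • ξ - R ξ)) +
        (m : ℂ) • ((2 : ℂ) • star X (R ξ) - R (star X (R ξ)))

/-- The integral formula for the strip. -/
def Z_strip : Prop :=
  ∀ F : ℂ → ℂ, Differentiable ℂ F → (∃ B : ℝ, ∀ z : ℂ, |z.re| ≤ 1 → ‖F z‖ ≤ B) →
    ∫ t : ℝ, (F (1 + t * Complex.I) + F (-1 + t * Complex.I)) / (Real.cosh (Real.pi * t / 2) : ℂ) =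
      4 * F 0

/-- Hypotheses on `R`, `T`: `0 ≤ R ≤ 2`, injectivity of `R` and `2 - R`, `T = √(R (2 - R))`. -/
structure RT {K : Type} [NormedAddCommGroup K] [InnerProductSpace ℂ K] [CompleteSpace K]
    (R T : K →L[ℂ] K) : Prop where
  sa : ∀ ξ η, ⟪R ξ, η⟫_ℂ = ⟪ξ, R η⟫_ℂ
  pos : ∀ ξ, 0 ≤ (⟪ξ, R ξ⟫_ℂ).re
  pos2 : ∀ ξ, (⟪ξ, R ξ⟫_ℂ).re ≤ 2 * ‖ξ‖ ^ 2
  inj : ∀ ξ, R ξ = 0 → ξ = 0
  inj2 : ∀ ξ, R ξ = (2 : ℂ) • ξ → ξ = 0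
  tsa : ∀ ξ η, ⟪T ξ, η⟫_ℂ = ⟪ξ, T η⟫_ℂ
  tpos : ∀ ξ, 0 ≤ (⟪ξ, T ξ⟫_ℂ).re
  tsq : ∀ ξ, T (T ξ) = (2 : ℂ) • R ξ - R (R ξ)
  tr : ∀ ξ, T (R ξ) = R (T ξ)

/-- Approximation by spectral cutoffs. -/
def Z_cut : Prop :=
  ∀ (K : Type) [NormedAddCommGroup K] [InnerProductSpace ℂ K] [CompleteSpace K]
    (R T : K →L[ℂ] K), RT R T → ∃ (Λ g : ℕ → (K →L[ℂ] K)),
      (∀ n, (∀ ξ η, ⟪Λ n ξ, η⟫_ℂ = ⟪ξ, Λ n η⟫_ℂ) ∧ (∀ ξ η, ⟪g n ξ, η⟫_ℂ = ⟪ξ, g n η⟫_ℂ)) ∧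
      (∀ n, ∀ ξ, Λ n (R ξ) = R (Λ n ξ) ∧ g n (R ξ) = R (g n ξ) ∧ Λ n (T ξ) = T (Λ n ξ) ∧
        g n (T ξ) = T (g n ξ)) ∧
      (∀ n m ξ, Λ n (g m ξ) = g m (Λ n ξ)) ∧
      (∀ n m, n ≤ m → ∀ ξ, Λ m (g n ξ) = Λ n (g n ξ)) ∧
      (∀ n ξ, T (NormedSpace.exp (Λ n) (g n ξ)) = (2 : ℂ) • g n ξ - R (g n ξ)) ∧
      (∀ n ξ, R (NormedSpace.exp (Λ n) (g n ξ)) = T (g n ξ)) ∧
      (∀ ξ, Filter.Tendsto (fun n => g n ξ) Filter.atTop (nhds ξ))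

/-- The unitary group `((2 - R) / R) ^ (i t / 2)`. -/
def Z_grp : Prop :=
  ∀ (K : Type) [NormedAddCommGroup K] [InnerProductSpace ℂ K] [CompleteSpace K]
    (R T : K →L[ℂ] K), RT R T → ∃ U : ℝ → (K →L[ℂ] K), U 0 = 1 ∧ (∀ t ζ, ‖U t ζ‖ ≤ ‖ζ‖) ∧
      (∀ ζ, Continuous fun t => U t ζ) ∧
      ∀ ζ : K, ∀ ε : ℝ, 0 < ε → ∃ a a' : ℂ → K, ‖a 0 - ζ‖ < ε ∧ Differentiable ℂ a ∧
        (Differentiable ℂ fun z : ℂ => (innerSL ℂ (a (conj z)) : K →L[ℂ] ℂ)) ∧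
        (∃ B : ℝ, ∀ z : ℂ, |z.re| ≤ 1 → ‖a z‖ ≤ B) ∧
        (∀ t : ℝ, a (t * Complex.I) = U t (a 0)) ∧
        ∀ z, T (a' z) = a z ∧ (2 : ℂ) • a' z - R (a' z) = a (z + 1) ∧ R (a' z) = a (z - 1)

/-- The commutation lemma. -/
def Z_mod : Prop :=
  ∀ (K : Type) [NormedAddCommGroup K] [InnerProductSpace ℂ K] [CompleteSpace K]
    (R T : K →L[ℂ] K), RT R T → ∀ (Y : K →L[ℂ] K) (W : ℝ → (K →L[ℂ] K)) (c : ℝ),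
    (∀ u, ‖W u‖ ≤ c) →
    (∀ (u : ℝ) (ξ : K), T (Y (T ξ)) = (Real.exp (-u) : ℂ) • R (W u ((2 : ℂ) • ξ - R ξ)) +
      (Real.exp u : ℂ) • ((2 : ℂ) • W u (R ξ) - R (W u (R ξ)))) →
    ∀ z : K →L[ℂ] K, (∀ u, z * W u = W u * z) → z * Y = Y * z

/-- Partial isometries from equality of norms. -/
def Z_pi : Prop :=
  ∀ (K : Type) [NormedAddCommGroup K] [InnerProductSpace ℂ K] [CompleteSpace K]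
    (N : VonNeumannAlgebra K) (α β : K),
    (∀ x' : K →L[ℂ] K, x' ∈ N.commutant → ‖x' α‖ = ‖x' β‖) →
    ∃ u ∈ N, ‖u‖ ≤ 1 ∧ u α = β ∧ star u β = α

/-- Abel means of a contraction. -/
def Z_abel : Prop :=
  ∀ (K : Type) [NormedAddCommGroup K] [InnerProductSpace ℂ K] [CompleteSpace K]
    (u : K →L[ℂ] K), ‖u‖ ≤ 1 → (∀ ζ, u ζ = -ζ → ζ = 0) →
    ∀ ζ : K, ∀ ε : ℝ, 0 < ε → ∃ r₀ : ℝ, r₀ < 1 ∧ 0 < r₀ ∧ ∀ r : ℝ, r₀ < r → r < 1 →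
      ∀ w : K, w + (r : ℂ) • u w = ζ → (1 - r) * ‖w‖ ≤ ε

/-- Duality of the real subspaces. -/
def Z_t5a : Prop :=
  ∀ (K : Type) [NormedAddCommGroup K] [InnerProductSpace ℂ K] [CompleteSpace K]
    (N : VonNeumannAlgebra K) (Ω : K), Cyc (N.commutant : Set (K →L[ℂ] K)) Ω →
    ∀ η : K, (∀ x' : K →L[ℂ] K, x' ∈ N.commutant → star x' = x' → (⟪η, x' Ω⟫_ℂ).re = 0) →
    ∀ ε : ℝ, 0 < ε → ∃ x ∈ N, star x = -x ∧ ‖x Ω - η‖ < ε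

/-- The data of the commutant. -/
def Z_t5 : Prop :=
  ∀ (K : Type) [NormedAddCommGroup K] [InnerProductSpace ℂ K] [CompleteSpace K]
    (N : VonNeumannAlgebra K) (Ω : K) (R : K →L[ℂ] K) (A : K →L⋆[ℂ] K),
    Cyc (N.commutant : Set (K →L[ℂ] K)) Ω → TomD N Ω R A →
    TomD N.commutant Ω ((2 : ℂ) • (1 : K →L[ℂ] K) - R) A

/-- `J N' J ⊆ N`. -/
def Z_t6 : Prop :=
  ∀ (K : Type) [NormedAddCommGroup K] [InnerProductSpace ℂ K] [CompleteSpace K]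
    (N : VonNeumannAlgebra K) (Ω : K) (R : K →L[ℂ] K) (A : K →L⋆[ℂ] K) (T : K →L[ℂ] K)
    (J : K ≃ₗᵢ⋆[ℂ] K), Cyc (N.commutant : Set (K →L[ℂ] K)) Ω → TomD N Ω R A → TomJ R A T J →
    ∀ x' : K →L[ℂ] K, x' ∈ N.commutant → cj J x' ∈ N

/-- Positivity. -/
def Z_tpos : Prop :=
  ∀ (K : Type) [NormedAddCommGroup K] [InnerProductSpace ℂ K] [CompleteSpace K]
    (N : VonNeumannAlgebra K) (Ω : K) (R : K →L[ℂ] K) (A : K →L⋆[ℂ] K) (T : K →L[ℂ] K)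
    (J : K ≃ₗᵢ⋆[ℂ] K), TomD N Ω R A → TomJ R A T J → ∀ x ∈ N, 0 ≤ ⟪star x Ω, J (x Ω)⟫_ℂ

/-- Finite pieces. -/
def Z_fincase : Prop :=
  ∀ (H : Type) [NormedAddCommGroup H] [InnerProductSpace ℂ H] [CompleteSpace H]
    (M : VonNeumannAlgebra H) (P : (H →L[ℂ] H) →ₗ[ℂ] (H →L[ℂ] H)) (c : ℝ), 1 ≤ c →
    IsProj M P c → ∀ z : M.toStarSubalgebra, CPrj z → z ≠ 0 → Fnt z →
    ∃ p, IsCP M p ∧ p ≠ 0 ∧ (z : H →L[ℂ] H) * p = p ∧ Inj M p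

/-- The theorem. -/
def Z_main : Prop :=
  ∀ (H : Type) [NormedAddCommGroup H] [InnerProductSpace ℂ H] [CompleteSpace H]
    (M : VonNeumannAlgebra H) (P : (H →L[ℂ] H) →L[ℂ] (H →L[ℂ] H)), (∀ x, P x ∈ M) →
    (∀ m ∈ M, P m = m) →
    ∃ Q : (H →L[ℂ] H) →L[ℂ] (H →L[ℂ] H), (∀ x, Q x ∈ M) ∧ (∀ m ∈ M, Q m = m) ∧ ‖Q‖ ≤ 1

end H97R2.BP
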